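import Mathlib

set_option autoImplicit false

open Finset

namespace Pool.Agent.Results.MP_66fdf3_co.CommutatorInvolution

/-- `M` is a latin square with rows, columns and symbols indexed by `G`. -/
def IsLatin {G : Type} (M : G → G → G) : Prop :=
  (∀ g, Function.Bijective (M g)) ∧ ∀ h, Function.Bijective fun g => M g h

/-- `L` and `M` are near-orthogonal. -/
def NearOrthogonal {G : Type} [Fintype G] [DecidableEq G] (L M : G → G → G) : Prop :=
  (∃ r₁ r₂ c₁ c₂ : G, r₁ ≠ r₂ ∧ c₁ ≠ c₂ ∧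
    (L r₁ c₁ = L r₂ c₂ ∧ L r₁ c₂ = L r₂ c₁) ∧ (M r₁ c₁ = M r₂ c₂ ∧ M r₁ c₂ = M r₂ c₁) ∧
    ({L r₁ c₁, L r₁ c₂} : Finset G) = {M r₁ c₁, M r₁ c₂}) ∧
  (univ.image fun x : G × G => (L x.1 x.2, M x.1 x.2)).card = Fintype.card G ^ 2 - 2

theorem counts {G : Type} [Fintype G] [DecidableEq G] (N : G → G → ℕ)
    (hrow : ∀ x, ∑ s, N x s = Fintype.card G) (hcol : ∀ s, ∑ x, N x s = Fintype.card G)
    (hpos : (univ.filter fun y : G × G => 0 < N y.1 y.2).card = Fintype.card G ^ 2 - 2)
    (hn : 2 < Fintype.card G) (x1 x2 s1 s2 : G) (hx : x1 ≠ x2)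
    (h1 : 2 ≤ N x1 s1) (h2 : 2 ≤ N x2 s2) :
    N x1 s1 = 2 ∧ N x2 s1 = 0 ∧ (∀ x, x ≠ x1 → x ≠ x2 → ∀ s, N x s = 1) ∧
      (∀ s, s ≠ s1 → s ≠ s2 → ∀ x, N x s = 1) := by
  have hsum : ∑ y : G × G, N y.1 y.2 = Fintype.card G ^ 2 := by
    rw [Fintype.sum_prod_type]
    simp only [hrow]
    simp [sq]
  set f : G × G → ℤ := fun y => (N y.1 y.2 : ℤ) - (if 0 < N y.1 y.2 then 1 else 0) with hf
  have hf0 : ∀ y, 0 ≤ f y := by
    intro y
    simp only [hf]
    split_ifs with h <;> omega
  have hfs : ∑ y, f y = 2 := by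
    simp only [hf]
    rw [Finset.sum_sub_distrib, ← Nat.cast_sum, hsum, Finset.sum_boole, hpos]
    have : 2 ≤ Fintype.card G ^ 2 := by nlinarith
    push_cast [Nat.cast_sub this]
    ring
  have hne : (x1, s1) ≠ (x2, s2) := fun h => hx (congrArg Prod.fst h)
  have e1 : 1 ≤ f (x1, s1) := by
    simp only [hf]; rw [if_pos (by omega)]; omega
  have e2 : 1 ≤ f (x2, s2) := by
    simp only [hf]; rw [if_pos (by omega)]; omega
  have e12 : f (x1, s1) + f (x2, s2) ≤ 2 := by
    rw [← hfs, ← Finset.sum_pair hne]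
    exact Finset.sum_le_sum_of_subset_of_nonneg (subset_univ _) fun y _ _ => hf0 y
  have e3 : ∀ y, y ≠ (x1, s1) → y ≠ (x2, s2) → N y.1 y.2 ≤ 1 := by
    intro y hy1 hy2
    have h3 : f y + (f (x1, s1) + f (x2, s2)) ≤ 2 := by
      rw [← hfs, ← Finset.sum_pair hne, ← Finset.sum_insert (by simp [hy1, hy2])]
      exact Finset.sum_le_sum_of_subset_of_nonneg (subset_univ _) fun y _ _ => hf0 y
    have h4 : f y ≤ 0 := by linarith
    simp only [hf] at h4
    split_ifs at h4 with h <;> omega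
  have n1 : N x1 s1 = 2 := by
    have : f (x1, s1) ≤ 1 := by linarith
    simp only [hf] at this
    rw [if_pos (by omega)] at this
    omega
  have full : ∀ g : G → ℕ, (∀ x, g x ≤ 1) → ∑ x, g x = Fintype.card G → ∀ x, g x = 1 := by
    intro g hg hs x
    by_contra hne'
    have h5 : ∑ x, g x < ∑ _x : G, 1 :=
      Finset.sum_lt_sum (fun x _ => hg x) ⟨x, mem_univ x, lt_of_le_of_ne (hg x) hne'⟩
    rw [hs] at h5
    simp at h5
  have r1 : ∀ x, x ≠ x1 → x ≠ x2 → ∀ s, N x s = 1 := by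
    intro x hx1 hx2
    apply full (fun s => N x s) _ (hrow x)
    intro s
    exact e3 (x, s) (fun h => hx1 (congrArg Prod.fst h)) (fun h => hx2 (congrArg Prod.fst h))
  have r2 : ∀ s, s ≠ s1 → s ≠ s2 → ∀ x, N x s = 1 := by
    intro s hs1 hs2
    apply full (fun x => N x s) _ (hcol s)
    intro x
    exact e3 (x, s) (fun h => hs1 (congrArg Prod.snd h)) (fun h => hs2 (congrArg Prod.snd h))
  refine ⟨n1, ?_, r1, r2⟩
  have h6 := hcol s1
  rw [← Finset.sum_sdiff (subset_univ {x1, x2}), Finset.sum_pair hx, n1,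
    Finset.sum_congr rfl (g := fun _ => 1) (fun x hx' => by
      simp only [mem_sdiff, mem_univ, true_and, mem_insert, mem_singleton, not_or] at hx'
      exact r1 x hx'.1 hx'.2 s1)] at h6
  rw [Finset.sum_const, smul_eq_mul, mul_one, Finset.card_sdiff_of_subset (subset_univ _),
    Finset.card_pair hx, Finset.card_univ] at h6
  omega

theorem result : ∀ (G : Type) [Group G] [Fintype G] [DecidableEq G], 2 < Fintype.card G →
    (∃ M : G → G → G, IsLatin M ∧ NearOrthogonal (fun g h => g * h) M) →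
    ∃ t ∈ commutator G, t ≠ 1 ∧ t * t = 1 := by
  intro G _ _ _ hn ⟨M, ⟨hM1, hM2⟩, ⟨r1, r2, c1, c2, hr, hc, ⟨l1, l2⟩, ⟨m1, m2⟩, hset⟩, hcard⟩
  simp only at l1 l2 hset hcard
  let e : G → (G ≃ G) := fun g => Equiv.ofBijective (M g) (hM1 g)
  let H : G → G → G := fun s g => (e g).symm s
  have hH : ∀ s g h, H s g = h ↔ M g h = s := by
    intro s g h
    show (e g).symm s = h ↔ M g h = s
    rw [Equiv.symm_apply_eq]
    exact ⟨fun h => h.symm, fun h => h.symm⟩
  let N : G → G → ℕ := fun x s => (univ.filter fun g => g * H s g = x).card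
  have hcol : ∀ s, ∑ x, N x s = Fintype.card G := by
    intro s
    exact (Finset.card_eq_sum_card_fiberwise (fun g _ => Finset.mem_coe.mpr (mem_univ _))).symm
  have hN2 : ∀ x s, N x s = (univ.filter fun g => M g (g⁻¹ * x) = s).card := by
    intro x s
    show (univ.filter fun g => g * H s g = x).card = _
    congr 1
    ext g
    simp only [mem_filter, mem_univ, true_and]
    rw [← hH, eq_inv_mul_iff_mul_eq]
  have hrow : ∀ x, ∑ s, N x s = Fintype.card G := by
    intro x
    simp only [hN2]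
    exact (Finset.card_eq_sum_card_fiberwise (fun g _ => Finset.mem_coe.mpr (mem_univ _))).symm
  have hpos : (univ.filter fun y : G × G => 0 < N y.1 y.2).card = Fintype.card G ^ 2 - 2 := by
    rw [← hcard]
    congr 1
    ext ⟨x, s⟩
    simp only [mem_filter, mem_univ, true_and, mem_image, Prod.exists, Prod.mk.injEq, hN2,
      Finset.card_pos, Finset.Nonempty]
    constructor
    · rintro ⟨g, hg⟩
      exact ⟨g, g⁻¹ * x, by group, hg⟩
    · rintro ⟨g, h, rfl, hg⟩
      exact ⟨g, by simpa using hg⟩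
  -- the repeated pairs
  have two : ∀ x s g1 g2 h1 h2, g1 ≠ g2 → g1 * h1 = x → g2 * h2 = x → M g1 h1 = s → M g2 h2 = s →
      2 ≤ N x s := by
    intro x s g1 g2 h1 h2 hg a1 a2 b1 b2
    rw [hN2]
    have : ({g1, g2} : Finset G) ⊆ univ.filter fun g => M g (g⁻¹ * x) = s := by
      intro g hg'
      simp only [mem_insert, mem_singleton] at hg'
      simp only [mem_filter, mem_univ, true_and]
      rcases hg' with rfl | rfl
      · rw [← a1]; simpa using b1
      · rw [← a2]; simpa using b2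
    calc 2 = ({g1, g2} : Finset G).card := (Finset.card_pair hg).symm
      _ ≤ _ := Finset.card_le_card this
  have huv : r1 * c1 ≠ r1 * c2 := fun h => hc (mul_left_cancel h)
  obtain ⟨n1, n2, q1, q2⟩ := counts N hrow hcol hpos hn (r1 * c1) (r1 * c2) (M r1 c1) (M r1 c2) huv
    (two _ _ r1 r2 c1 c2 hr rfl l1.symm rfl m1.symm)
    (two _ _ r1 r2 c2 c1 hr rfl l2.symm rfl m2.symm)
  -- products in the abelianization
  let π : G →* Abelianization G := Abelianization.of
  have hprod : ∀ s, ∏ x, π x ^ N x s = (∏ g, π g) * ∏ g, π g := by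
    intro s
    have hb : Function.Bijective (H s) := by
      apply (Fintype.bijective_iff_injective_and_card _).mpr
      refine ⟨fun g1 g2 h => ?_, rfl⟩
      have a1 := (hH s g1 (H s g2)).mp h
      have a2 := (hH s g2 (H s g2)).mp rfl
      exact (hM2 (H s g2)).1 (a1.trans a2.symm)
    have h7 : ∏ g, π (g * H s g) = (∏ g, π g) * ∏ g, π g := by
      simp only [map_mul, Finset.prod_mul_distrib]
      congr 1
      exact Function.Bijective.prod_comp hb (fun g => π g)
    rw [← h7, ← Finset.prod_fiberwise univ (fun g => g * H s g) (fun g => π (g * H s g))]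
    refine Finset.prod_congr rfl fun x _ => ?_
    rw [Finset.prod_congr rfl (g := fun _ => π x) (fun g hg => by
      rw [(mem_filter.mp hg).2]), Finset.prod_const]
  obtain ⟨s0, hs0⟩ : ∃ s0, s0 ∉ ({M r1 c1, M r1 c2} : Finset G) := by
    by_contra hcon
    push Not at hcon
    have : Fintype.card G ≤ 2 := by
      calc Fintype.card G = (univ : Finset G).card := rfl
        _ ≤ ({M r1 c1, M r1 c2} : Finset G).card := Finset.card_le_card fun x _ => hcon x
        _ ≤ 2 := Finset.card_le_two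
    omega
  simp only [mem_insert, mem_singleton, not_or] at hs0
  have hP : (∏ g, π g) = 1 := by
    have h8 := hprod s0
    rw [Finset.prod_congr rfl (g := fun x => π x) (fun x _ => by
      rw [q2 s0 hs0.1 hs0.2 x, pow_one])] at h8
    exact (mul_eq_left.mp h8.symm)
  have hπ : π (r1 * c1) = π (r1 * c2) := by
    have h9 := hprod (M r1 c1)
    have h10 : ∏ x, π x ^ N x (M r1 c1) * (if x = r1 * c2 then π x else 1)
        = ∏ x, π x * (if x = r1 * c1 then π x else 1) := by
      refine Finset.prod_congr rfl fun x _ => ?_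
      by_cases hx1 : x = r1 * c1
      · subst hx1
        rw [n1, if_neg huv, if_pos rfl, mul_one, sq]
      · by_cases hx2 : x = r1 * c2
        · subst hx2
          rw [n2, if_pos rfl, if_neg hx1, pow_zero, one_mul, mul_one]
        · rw [q1 x hx1 hx2, if_neg hx2, if_neg hx1, pow_one]
    rw [Finset.prod_mul_distrib, Finset.prod_mul_distrib, h9, hP, Finset.prod_ite_eq',
      Finset.prod_ite_eq'] at h10
    simpa using h10.symm
  refine ⟨(r1 * c1) * (r1 * c2)⁻¹, ?_, ?_, ?_⟩
  · rw [← Abelianization.ker_of, MonoidHom.mem_ker, map_mul, map_inv]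
    show π (r1 * c1) * (π (r1 * c2))⁻¹ = 1
    rw [hπ, mul_inv_cancel]
  · intro h
    exact huv (mul_inv_eq_one.mp h)
  · have a1 : r2⁻¹ * r1 = c2 * c1⁻¹ := by
      rw [eq_mul_inv_iff_mul_eq, mul_assoc, l1]; group
    have a2 : r2⁻¹ * r1 = c1 * c2⁻¹ := by
      rw [eq_mul_inv_iff_mul_eq, mul_assoc, l2]; group
    have a3 : c1 * c2⁻¹ * (c1 * c2⁻¹) = 1 := by
      nth_rewrite 1 [← a2]
      rw [a1]; group
    calc r1 * c1 * (r1 * c2)⁻¹ * (r1 * c1 * (r1 * c2)⁻¹)
        = r1 * (c1 * c2⁻¹ * (c1 * c2⁻¹)) * r1⁻¹ := by group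
      _ = 1 := by rw [a3]; group

end Pool.Agent.Results.MP_66fdf3_co.CommutatorInvolution
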